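import Pool.Agent.Lib_helper44.G4.Defs

/-!
# Shift of the line of integration
-/

namespace Pool.Agent.G4

open Complex MeasureTheory Filter Topology

theorem shift_norm_exp (δ x t : ℝ) :
    ‖cexp (δ * ((x : ℂ) + t * I) ^ 2)‖ = Real.exp (δ * (x ^ 2 - t ^ 2)) := by
  rw [Complex.norm_exp]
  congr 1
  have : ((δ : ℂ) * ((x : ℂ) + t * I) ^ 2) = ((δ * (x ^ 2 - t ^ 2) : ℝ) : ℂ) + ((2 * δ * x * t : ℝ) : ℂ) * I := by
    push_cast
    ring_nf
    rw [I_sq]
    ring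
  rw [this]
  simp only [add_re, ofReal_re, re_ofReal_mul, I_re, mul_zero, add_zero]

theorem shift_integrable {f : ℂ → ℂ} {x : ℝ} {δ : ℝ} (hδ : 0 ≤ δ)
    (h1 : Integrable fun t : ℝ => f (x + t * I)) :
    Integrable fun t : ℝ => f (x + t * I) * cexp (δ * ((x : ℂ) + t * I) ^ 2) := by
  refine h1.mul_bdd (c := Real.exp (δ * x ^ 2)) ?_ ?_
  · exact (by fun_prop : Continuous fun t : ℝ => cexp (δ * ((x : ℂ) + t * I) ^ 2)).aestronglyMeasurable
  · refine Eventually.of_forall fun t => ?_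
    rw [shift_norm_exp]
    apply Real.exp_le_exp.mpr
    nlinarith [mul_nonneg hδ (sq_nonneg t)]

theorem shift_gauss {f : ℂ → ℂ} (hf : Differentiable ℂ f) {σ M : ℝ} (hσ : 0 ≤ σ)
    (hM : ∀ z : ℂ, |z.re| ≤ σ → ‖f z‖ ≤ M) (h1 : Integrable fun t : ℝ => f (σ + t * I))
    (h2 : Integrable fun t : ℝ => f (-σ + t * I)) {δ : ℝ} (hδ : 0 < δ) :
    ∫ t : ℝ, f (σ + t * I) * cexp (δ * ((σ : ℂ) + t * I) ^ 2) =
      ∫ t : ℝ, f (-σ + t * I) * cexp (δ * (-(σ : ℂ) + t * I) ^ 2) := by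
  set g : ℂ → ℂ := fun z => f z * cexp (δ * z ^ 2) with hg
  have hgd : Differentiable ℂ g := by
    intro z
    exact (hf z).mul (by fun_prop)
  have hM0 : 0 ≤ M := (norm_nonneg _).trans (hM 0 (by simpa using hσ))
  have h2' : Integrable fun t : ℝ => f (((-σ : ℝ) : ℂ) + t * I) := by
    simpa using h2
  have i1 := shift_integrable hδ.le h1
  have i2 := shift_integrable hδ.le h2'
  have r : ∀ T : ℝ, (∫ x in (-σ)..σ, g (x + (-T : ℝ) * I)) - (∫ x in (-σ)..σ, g (x + (T : ℝ) * I)) +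
      I • (∫ y in (-T)..T, g ((σ : ℝ) + y * I)) - I • (∫ y in (-T)..T, g (((-σ : ℝ) : ℂ) + y * I)) = 0 := by
    intro T
    have := Complex.integral_boundary_rect_eq_zero_of_differentiableOn g
      (⟨-σ, -T⟩ : ℂ) (⟨σ, T⟩ : ℂ) hgd.differentiableOn
    simpa using this
  have t1 : Tendsto (fun T : ℝ => ∫ y in (-T)..T, g ((σ : ℝ) + y * I)) atTop
      (𝓝 (∫ y : ℝ, g ((σ : ℝ) + y * I))) :=
    intervalIntegral_tendsto_integral i1 tendsto_neg_atTop_atBot tendsto_id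
  have t2 : Tendsto (fun T : ℝ => ∫ y in (-T)..T, g (((-σ : ℝ) : ℂ) + y * I)) atTop
      (𝓝 (∫ y : ℝ, g (((-σ : ℝ) : ℂ) + y * I))) :=
    intervalIntegral_tendsto_integral i2 tendsto_neg_atTop_atBot tendsto_id
  have hb : ∀ T : ℝ, ∀ s : ℝ, s ^ 2 = T ^ 2 → ‖∫ x in (-σ)..σ, g (x + (s : ℝ) * I)‖ ≤
      M * Real.exp (δ * (σ ^ 2 - T ^ 2)) * |σ - (-σ)| := by
    intro T s hs
    refine intervalIntegral.norm_integral_le_of_norm_le_const ?_
    intro x hx
    rw [Set.uIoc_of_le (by linarith)] at hx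
    have hx' : |x| ≤ σ := abs_le.mpr ⟨hx.1.le, hx.2⟩
    rw [hg]
    simp only
    rw [norm_mul, shift_norm_exp]
    refine mul_le_mul (hM _ (by simpa using hx')) ?_ (Real.exp_pos _).le hM0
    apply Real.exp_le_exp.mpr
    rw [hs]
    have : x ^ 2 ≤ σ ^ 2 := sq_le_sq' (by linarith [hx.1]) hx.2
    nlinarith
  have hz : Tendsto (fun T : ℝ => M * Real.exp (δ * (σ ^ 2 - T ^ 2)) * |σ - (-σ)|) atTop (𝓝 0) := by
    have e1 : Tendsto (fun T : ℝ => δ * (σ ^ 2 - T ^ 2)) atTop atBot := by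
      refine Tendsto.const_mul_atBot hδ ?_
      refine tendsto_atBot_add_const_left _ _ ?_
      exact tendsto_neg_atTop_atBot.comp (tendsto_pow_atTop two_ne_zero)
    have e2 := Real.tendsto_exp_atBot.comp e1
    have e3 := (e2.const_mul M).mul_const (|σ - (-σ)|)
    simpa using e3
  have z1 : Tendsto (fun T : ℝ => ∫ x in (-σ)..σ, g (x + (-T : ℝ) * I)) atTop (𝓝 0) := by
    refine squeeze_zero_norm (fun T => hb T (-T) (by ring)) hz
  have z2 : Tendsto (fun T : ℝ => ∫ x in (-σ)..σ, g (x + (T : ℝ) * I)) atTop (𝓝 0) := by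
    refine squeeze_zero_norm (fun T => hb T T rfl) hz
  have lim := ((z1.sub z2).add (t1.const_smul I)).sub (t2.const_smul I)
  have lim0 : Tendsto (fun T : ℝ => (∫ x in (-σ)..σ, g (x + (-T : ℝ) * I)) -
      (∫ x in (-σ)..σ, g (x + (T : ℝ) * I)) +
      I • (∫ y in (-T)..T, g ((σ : ℝ) + y * I)) - I • (∫ y in (-T)..T, g (((-σ : ℝ) : ℂ) + y * I)))
      atTop (𝓝 0) := by
    refine tendsto_const_nhds.congr fun T => (r T).symm
  have e := tendsto_nhds_unique lim lim0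
  have e' : I * ((∫ y : ℝ, g ((σ : ℝ) + y * I)) - ∫ y : ℝ, g (((-σ : ℝ) : ℂ) + y * I)) = 0 := by
    rw [mul_sub]
    simpa [smul_eq_mul] using e
  have e'' := (mul_eq_zero.mp e').resolve_left I_ne_zero
  have := sub_eq_zero.mp e''
  simpa [hg] using this

/-- SHIFT -/
theorem shift_pr {f : ℂ → ℂ} (hf : Differentiable ℂ f) {σ M : ℝ} (hσ : 0 ≤ σ)
    (hM : ∀ z : ℂ, |z.re| ≤ σ → ‖f z‖ ≤ M) (h1 : Integrable fun t : ℝ => f (σ + t * I))
    (h2 : Integrable fun t : ℝ => f (-σ + t * I)) :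
    ∫ t : ℝ, f (σ + t * I) = ∫ t : ℝ, f (-σ + t * I) := by
  have key : ∀ x : ℝ, x ^ 2 = σ ^ 2 → Integrable (fun t : ℝ => f (x + t * I)) →
      Tendsto (fun δ : ℝ => ∫ t : ℝ, f (x + t * I) * cexp (δ * ((x : ℂ) + t * I) ^ 2)) (𝓝[>] 0)
        (𝓝 (∫ t : ℝ, f (x + t * I))) := by
    intro x hx hi
    have hcont : ∀ t : ℝ, Tendsto (fun δ : ℝ => f (x + t * I) * cexp (δ * ((x : ℂ) + t * I) ^ 2))
        (𝓝[>] 0) (𝓝 (f (x + t * I))) := by
      intro t
      have hc : Continuous fun δ : ℝ => f (x + t * I) * cexp (δ * ((x : ℂ) + t * I) ^ 2) := by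
        fun_prop
      have := hc.tendsto 0
      simp only [ofReal_zero, zero_mul, Complex.exp_zero, mul_one] at this
      exact this.mono_left nhdsWithin_le_nhds
    refine tendsto_integral_filter_of_dominated_convergence
      (fun t => ‖f (x + t * I)‖ * Real.exp (σ ^ 2)) ?_ ?_ (hi.norm.mul_const _)
      (Eventually.of_forall hcont)
    · refine eventually_nhdsWithin_of_forall fun δ hδ => ?_
      exact (shift_integrable (le_of_lt hδ) hi).aestronglyMeasurable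
    · have : ∀ᶠ δ : ℝ in 𝓝[>] 0, δ < 1 :=
        (eventually_lt_nhds one_pos).filter_mono nhdsWithin_le_nhds
      filter_upwards [this, self_mem_nhdsWithin] with δ hδ1 hδ0
      refine Eventually.of_forall fun t => ?_
      rw [norm_mul, shift_norm_exp]
      refine mul_le_mul_of_nonneg_left ?_ (norm_nonneg _)
      apply Real.exp_le_exp.mpr
      have h0 : (0:ℝ) < δ := hδ0
      rw [hx]
      nlinarith [mul_nonneg h0.le (sq_nonneg t), sq_nonneg σ, mul_nonneg (sub_nonneg.mpr hδ1.le) (sq_nonneg σ)]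
  have k1 := key σ rfl h1
  have k2 := key (-σ) (by ring) (by simpa using h2)
  have k2' : Tendsto (fun δ : ℝ => ∫ t : ℝ, f (σ + t * I) * cexp (δ * ((σ : ℂ) + t * I) ^ 2)) (𝓝[>] 0)
        (𝓝 (∫ t : ℝ, f (((-σ : ℝ) : ℂ) + t * I))) := by
    refine k2.congr' ?_
    refine eventually_nhdsWithin_of_forall fun δ hδ => ?_
    have := shift_gauss hf hσ hM h1 h2 hδ
    simpa using this.symm
  have := tendsto_nhds_unique k1 k2'
  simpa using this

end Pool.Agent.G4
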