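import Pool.Agent.Lib_helper38.G4.AB
import Pool.Agent.Lib_helper38.G4.DB
import Pool.Agent.Lib_helper44.G4.Defs
import Pool.Agent.Lib_helper50.G4.SHIFT

/-!
# Functional equation of the density
-/

namespace Pool.Agent.G4

open Complex MeasureTheory Filter Topology

variable {m : ℕ}

theorem fed_rsb (S : Sys m) : ∃ C : ℝ, 0 ≤ C ∧ RSB S.a C := by
  obtain ⟨C, hC⟩ := S.rs
  refine ⟨|C|, abs_nonneg _, fun x => (hC x).trans ?_⟩
  exact mul_le_mul_of_nonneg_right (le_abs_self C) (Nat.cast_nonneg _)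

/-- absolute convergence of the Dirichlet series -/
theorem fed_summable (S : Sys m) {σ : ℝ} (hσ : 1 / 2 < σ) :
    Summable fun n : ℕ => ‖S.a n‖ * (n : ℝ) ^ (-(1 / 2 + σ)) := by
  obtain ⟨C, hC0, hC⟩ := fed_rsb S
  obtain ⟨C', hC', h⟩ := ab_high_pr (B := σ - 1 / 2) (by linarith)
  have h1 := (h (fun n => ‖S.a n‖ ^ 2) C (fun n => by positivity) hC).1
  have h2 : Summable fun n : ℕ => (n : ℝ) ^ (-(σ + 1 / 2)) :=
    Real.summable_nat_rpow.mpr (by linarith)
  refine Summable.of_nonneg_of_le (fun n => by positivity) ?_ (h1.add h2)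
  intro n
  rcases Nat.eq_zero_or_pos n with rfl | hn
  · rw [S.a_zero]
    simp
    positivity
  have hn' : (0 : ℝ) < n := by exact_mod_cast hn
  set a := ‖S.a n‖ with ha
  have e1 : (n : ℝ) ^ (-1 - (σ - 1 / 2)) = (n : ℝ) ^ (-(σ + 1 / 2)) := by
    congr 1
    ring
  have e2 : (n : ℝ) ^ (-(1 / 2 + σ)) = (n : ℝ) ^ (-(σ + 1 / 2)) := by
    congr 1
    ring
  rw [e1, e2, ← one_mul ((n : ℝ) ^ (-(σ + 1 / 2))), ← mul_assoc, ← mul_assoc, ← add_mul]
  refine mul_le_mul_of_nonneg_right ?_ (by positivity)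
  nlinarith [sq_nonneg (a - 1), sq_nonneg a]

theorem fed_ev_norm (x : Ix) (n : ℕ) : ‖ev x n‖ ≤ 1 := DirichletCharacter.norm_le_one _ _

/-- the Dirichlet series is bounded on vertical lines -/
theorem fed_series_bound (S : Sys m) (x : Ix) {σ : ℝ} (hσ : 1 / 2 < σ) : ∃ C : ℝ, ∀ t : ℝ,
    ‖LSeries (fun n => S.a n * ev x n) (1 / 2 + (σ + t * I))‖ ≤ C := by
  refine ⟨∑' n : ℕ, ‖S.a n‖ * (n : ℝ) ^ (-(1 / 2 + σ)), fun t => ?_⟩
  refine tsum_of_norm_bounded (fed_summable S hσ).hasSum fun n => ?_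
  rcases Nat.eq_zero_or_pos n with rfl | hn
  · simp [S.a_zero]
  rw [LSeries.norm_term_eq, if_neg hn.ne', norm_mul]
  have e1 : ((1 : ℂ) / 2 + (σ + t * I)).re = 1 / 2 + σ := by
    simp
  rw [e1, div_eq_mul_inv, ← Real.rpow_neg (Nat.cast_nonneg _)]
  refine mul_le_mul_of_nonneg_right ?_ (by positivity)
  exact mul_le_of_le_one_right (norm_nonneg _) (fed_ev_norm x n)

theorem fed_cond (S : Sys m) (x : Ix) (z : ℂ) :
    ((S.N : ℂ) * ((x.1 + 2 : ℕ) : ℂ) ^ m) ^ (z / 2) = cexp (ell S x * z) := by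
  have hN : (S.N : ℂ) ≠ 0 := by exact_mod_cast S.N_pos.ne'
  have hq : ((x.1 + 2 : ℕ) : ℂ) ≠ 0 := by exact_mod_cast (by omega : x.1 + 2 ≠ 0)
  have hp : (S.N : ℂ) * ((x.1 + 2 : ℕ) : ℂ) ^ m ≠ 0 := mul_ne_zero hN (pow_ne_zero _ hq)
  rw [Complex.cpow_def_of_ne_zero hp]
  congr 1
  have e : (S.N : ℂ) * ((x.1 + 2 : ℕ) : ℂ) ^ m = (((S.N : ℝ) * ((x.1 + 2 : ℕ) : ℝ) ^ m : ℝ) : ℂ) := by
    push_cast
    ring
  have hN' : (0 : ℝ) < S.N := by exact_mod_cast S.N_pos
  have hq' : (0 : ℝ) < ((x.1 + 2 : ℕ) : ℝ) := by positivity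
  rw [e, ← Complex.ofReal_log (by positivity), Real.log_mul hN'.ne' (by positivity), Real.log_pow]
  unfold ell
  push_cast
  ring

/-- transform of the centred density -/
theorem fed_transform {S : Sys m} (k : Kers S) {x : Ix} {Λ : ℂ → ℂ}
    (hΛ : ∀ s : ℂ, 1 < s.re → Λ s = ((S.N : ℂ) * ((x.1 + 2 : ℕ) : ℂ) ^ m) ^ (s / 2) *
        (∏ j, Gammaℝ (s - S.μ (par x.2) j)) * LSeries (fun n => S.a n * x.2 n) s) {z : ℂ}
    (hz : 1 / 2 < z.re) :
    Integrable (fun u : ℝ => Dx k x (u - ell S x) * cexp (z * u)) ∧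
      ∫ u : ℝ, Dx k x (u - ell S x) * cexp (z * u) =
        cexp (-(ell S x : ℂ) / 2) * Λ (1 / 2 + z) := by
  obtain ⟨C, hC0, hC⟩ := fed_rsb S
  obtain ⟨i1, e1⟩ := db_mellin_pr k.κ_pos (k.isKer (par x.2)) hC x hz
  have hfun : (fun u : ℝ => Dx k x (u - ell S x) * cexp (z * u)) =
      fun u : ℝ => (fun v : ℝ => Dx k x v * cexp (z * v) * cexp (z * ell S x)) (u - ell S x) := by
    funext u
    simp only
    rw [mul_assoc, ← Complex.exp_add]
    congr 2
    push_cast
    ring
  rw [hfun]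
  refine ⟨(i1.mul_const (cexp (z * ell S x))).comp_sub_right _, ?_⟩
  rw [integral_sub_right_eq_self (fun v : ℝ => Dx k x v * cexp (z * v) * cexp (z * ell S x)),
    integral_mul_const]
  unfold Dx
  rw [e1, k.mellin (par x.2) z (by linarith [k.κ_pos])]
  rw [hΛ (1 / 2 + z) (by
    rw [Complex.add_re]
    norm_num
    linarith)]
  rw [fed_cond S x (1 / 2 + z)]
  have hL : LSeries (fun n => S.a n * ev x n) (1 / 2 + z) =
      LSeries (fun n => S.a n * x.2 n) (1 / 2 + z) := rfl
  rw [hL]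
  unfold Sys.gam
  have hexp : cexp (z * ell S x) = cexp (-(ell S x : ℂ) / 2) * cexp (ell S x * (1 / 2 + z)) := by
    rw [← Complex.exp_add]
    congr 1
    ring
  rw [hexp]
  ring

/-- FED: functional equation of the density -/
theorem fe_dens_pr {S : Sys m} (k : Kers S) {x : Ix} (hx : x.q.Coprime S.N) (hp : x.2.IsPrimitive) :
    ∃ W : ℂ, ‖W‖ = 1 ∧ ∀ u : ℝ,
      Dx k x (-ell S x - u) = W * starRingEnd ℂ (Dx k x (-ell S x + u)) := by
  obtain ⟨Λ, W, hd, hW, hbd, hfe, hser⟩ := S.fe (x.1 + 2) (by omega) hx x.2 hp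
  obtain ⟨CS, hCS0, hCS⟩ := fed_rsb S
  set l : ℝ := ell S x with hl
  set L0 : ℂ → ℂ := fun z => cexp (-(l : ℂ) / 2) * Λ (1 / 2 + z) with hL0
  set ψ : ℝ → ℂ := fun u => Dx k x (u - l) with hψ
  have htr : ∀ z : ℂ, 1 / 2 < z.re → Integrable (fun u : ℝ => ψ u * cexp (z * u)) ∧
      ∫ u : ℝ, ψ u * cexp (z * u) = L0 z := fun z hz => fed_transform k hser hz
  have hL0d : Differentiable ℂ L0 := by
    intro z
    have : DifferentiableAt ℂ (fun z : ℂ => Λ (1 / 2 + z)) z :=
      (hd (1 / 2 + z)).comp z (by fun_prop)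
    exact this.const_mul _
  have hψc : Continuous ψ := by
    have := db_cont_pr k.κ_pos (k.isKer (par x.2)) hCS x
    exact this.comp (continuous_id.sub continuous_const)
  -- decay on the line
  obtain ⟨C1, hC1⟩ := k.decay (par x.2) 1 (by linarith [k.κ_pos])
  obtain ⟨C2, hC2⟩ := fed_series_bound S x (σ := 1) (by norm_num)
  have hdec : ∃ C : ℝ, ∀ t : ℝ, ‖L0 (1 + t * I)‖ ≤ C / (1 + t ^ 2) := by
    refine ⟨Real.exp l * C1 * C2, fun t => ?_⟩
    have hre : (1 : ℂ) / 2 + (1 + t * I) = 1 / 2 + ((1 : ℝ) + t * I) := by push_cast; ring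
    have h3 : (1 : ℝ) < ((1 : ℂ) / 2 + (1 + t * I)).re := by
      simp
    rw [hL0]
    simp only
    rw [hser _ h3, fed_cond S x, norm_mul, norm_mul, norm_mul]
    have n1 : ‖cexp (-(l : ℂ) / 2)‖ * ‖cexp (ell S x * (1 / 2 + (1 + t * I)))‖ = Real.exp l := by
      rw [Complex.norm_exp, Complex.norm_exp, ← Real.exp_add]
      congr 1
      simp [← hl]
      ring
    have n2 : ‖∏ j, Gammaℝ (1 / 2 + (1 + t * I) - S.μ (par x.2) j)‖ ≤ C1 / (1 + t ^ 2) := by
      have := hC1 t
      unfold Sys.gam at this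
      rw [hre]
      simpa [add_assoc] using this
    have n3 : ‖LSeries (fun n => S.a n * x.2 n) (1 / 2 + (1 + t * I))‖ ≤ C2 := by
      have := hC2 t
      rw [hre]
      exact this
    have hC1' : 0 ≤ C1 / (1 + t ^ 2) := (norm_nonneg _).trans n2
    calc ‖cexp (-(l : ℂ) / 2)‖ * (‖cexp (ell S x * (1 / 2 + (1 + t * I)))‖ *
          ‖∏ j, Gammaℝ (1 / 2 + (1 + t * I) - S.μ (par x.2) j)‖ *
          ‖LSeries (fun n => S.a n * x.2 n) (1 / 2 + (1 + t * I))‖) =
        Real.exp l * (‖∏ j, Gammaℝ (1 / 2 + (1 + t * I) - S.μ (par x.2) j)‖ *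
          ‖LSeries (fun n => S.a n * x.2 n) (1 / 2 + (1 + t * I))‖) := by rw [← n1]; ring
      _ ≤ Real.exp l * (C1 / (1 + t ^ 2) * C2) := by
          refine mul_le_mul_of_nonneg_left ?_ (Real.exp_pos _).le
          exact mul_le_mul n2 n3 (norm_nonneg _) hC1'
      _ = Real.exp l * C1 * C2 / (1 + t ^ 2) := by ring
  obtain ⟨C, hC⟩ := hdec
  have hint : Integrable fun t : ℝ => L0 (1 + t * I) := by
    refine Integrable.mono' (integrable_inv_one_add_sq.const_mul C) ?_ ?_
    · exact (hL0d.continuous.comp (by fun_prop : Continuous fun t : ℝ => (1 + t * I : ℂ))).aestronglyMeasurable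
    · refine Eventually.of_forall fun t => ?_
      rw [← div_eq_mul_inv]
      exact hC t
  -- functional equation
  have hfe0 : ∀ t : ℝ, L0 (-1 + t * I) = W * starRingEnd ℂ (L0 (1 + t * I)) := by
    intro t
    rw [hL0]
    simp only
    rw [hfe]
    have e1 : 1 - starRingEnd ℂ ((1 : ℂ) / 2 + (-1 + t * I)) = 1 / 2 + (1 + t * I) := by
      simp [map_ofNat (starRingEnd ℂ) 2]
      ring
    have e2 : starRingEnd ℂ (cexp (-(l : ℂ) / 2)) = cexp (-(l : ℂ) / 2) := by
      rw [← Complex.exp_conj]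
      congr 1
      simp [map_ofNat (starRingEnd ℂ) 2]
    rw [e1, map_mul, e2]
    ring
  -- inversion
  have hinv : ∀ u : ℝ, ψ u = (2 * Real.pi : ℂ)⁻¹ *
      ∫ t : ℝ, cexp (-((1 + t * I) * u)) * L0 (1 + t * I) := by
    intro u
    set f : ℝ → ℂ := fun u => ψ u * cexp u with hf
    have hfc : Continuous f := hψc.mul (by fun_prop)
    have hfi : Integrable f := by
      have := (htr 1 (by norm_num)).1
      simpa [hf] using this
    have hF : ∀ w : ℝ, FourierTransform.fourier f w = L0 (1 + (-(2 * Real.pi) * w : ℝ) * I) := by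
      intro w
      rw [Real.fourier_real_eq_integral_exp_smul]
      rw [← (htr (1 + (-(2 * Real.pi) * w : ℝ) * I) (by simp; norm_num)).2]
      refine integral_congr_ae (Eventually.of_forall fun v => ?_)
      simp only [hf, smul_eq_mul]
      rw [mul_comm, mul_assoc, ← Complex.exp_add]
      congr 2
      push_cast
      ring
    have hFi : Integrable (FourierTransform.fourier f) := by
      have : FourierTransform.fourier f = fun w : ℝ => L0 (1 + (-(2 * Real.pi) * w : ℝ) * I) := funext hF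
      rw [this]
      exact hint.comp_mul_left' (R := -(2 * Real.pi)) (by
        have := Real.pi_pos
        intro h
        linarith)
    have h0 := congrFun (hfc.fourierInv_fourier_eq hfi hFi) u
    rw [Real.fourierInv_eq'] at h0
    have h1 : ∫ v : ℝ, cexp ((2 * Real.pi * inner ℝ v u : ℝ) * I) • FourierTransform.fourier f v =
        ∫ v : ℝ, (fun t : ℝ => cexp (-(t * u * I)) * L0 (1 + t * I)) (-(2 * Real.pi) * v) := by
      refine integral_congr_ae (Eventually.of_forall fun v => ?_)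
      simp only [smul_eq_mul]
      rw [hF]
      congr 2
      simp
      ring
    have h1' := Measure.integral_comp_mul_left
      (fun t : ℝ => cexp (-(t * u * I)) * L0 (1 + t * I)) (-(2 * Real.pi))
    rw [h1, h1'] at h0
    have h2 : ψ u = cexp (-u) * f u := by
      rw [hf]
      simp only
      rw [mul_comm, mul_assoc, ← Complex.exp_add]
      simp
    rw [h2, ← h0, real_smul]
    have h3 : (|(-(2 * Real.pi))⁻¹| : ℝ) = (2 * Real.pi)⁻¹ := by
      rw [inv_neg, abs_neg, abs_of_pos (by positivity)]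
    rw [h3, mul_left_comm, ← integral_const_mul]
    congr 1
    · push_cast
      ring
    · refine integral_congr_ae (Eventually.of_forall fun t => ?_)
      simp only
      rw [← mul_assoc, ← Complex.exp_add]
      congr 2
      ring
  -- shift
  have hsh : ∀ u : ℝ, ∫ t : ℝ, cexp (-((1 + t * I) * u)) * L0 (1 + t * I) =
      W * starRingEnd ℂ (∫ t : ℝ, cexp (-((1 + t * I) * (-u : ℝ))) * L0 (1 + t * I)) := by
    intro u
    set G : ℂ → ℂ := fun z => cexp (-(z * u)) * L0 z with hG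
    have hGd : Differentiable ℂ G := by
      intro z
      exact DifferentiableAt.mul (by fun_prop) (hL0d z)
    obtain ⟨M, hM⟩ := hbd (-1 / 2) (3 / 2)
    have hGM : ∀ z : ℂ, |z.re| ≤ (1 : ℝ) → ‖G z‖ ≤ Real.exp |u| * (‖cexp (-(l : ℂ) / 2)‖ * M) := by
      intro z hz
      rw [hG]
      simp only
      rw [norm_mul]
      have hz' := abs_le.mp hz
      refine mul_le_mul ?_ ?_ (norm_nonneg _) (Real.exp_pos _).le
      · rw [Complex.norm_exp]
        apply Real.exp_le_exp.mpr
        have : (-(z * (u : ℂ))).re = -(z.re * u) := by simp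
        rw [this]
        calc -(z.re * u) ≤ |z.re * u| := neg_le_abs _
          _ = |z.re| * |u| := abs_mul _ _
          _ ≤ 1 * |u| := mul_le_mul_of_nonneg_right hz (abs_nonneg _)
          _ = |u| := one_mul _
      · rw [hL0]
        simp only
        rw [norm_mul]
        refine mul_le_mul_of_nonneg_left (hM _ ?_ ?_) (norm_nonneg _)
        · rw [Complex.add_re]
          norm_num
          linarith
        · rw [Complex.add_re]
          norm_num
          linarith
    have hexpb : ∀ c : ℝ, c ^ 2 = 1 → ∀ t : ℝ, ‖cexp (-(((c : ℂ) + t * I) * u))‖ ≤ Real.exp |u| := by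
      intro c hc t
      rw [Complex.norm_exp]
      apply Real.exp_le_exp.mpr
      have : (-(((c : ℂ) + t * I) * (u : ℂ))).re = -(c * u) := by simp
      rw [this]
      have hc' : |c| = 1 := by
        have h := sq_abs c
        rw [hc] at h
        exact (pow_eq_one_iff_of_nonneg (abs_nonneg c) two_ne_zero).mp h
      calc -(c * u) ≤ |c * u| := neg_le_abs _
        _ = |c| * |u| := abs_mul _ _
        _ = |u| := by rw [hc', one_mul]
    have hG1 : Integrable fun t : ℝ => G ((1 : ℝ) + t * I) := by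
      rw [hG]
      simp only
      refine Integrable.bdd_mul (c := Real.exp |u|) ?_ ?_ ?_
      · simpa using hint
      · exact (by fun_prop : Continuous fun t : ℝ => cexp (-((((1 : ℝ) : ℂ) + t * I) * u))).aestronglyMeasurable
      · exact Eventually.of_forall fun t => hexpb 1 (by norm_num) t
    have hG2 : Integrable fun t : ℝ => G (-((1 : ℝ) : ℂ) + t * I) := by
      rw [hG]
      simp only
      refine Integrable.bdd_mul (c := Real.exp |u|) ?_ ?_ ?_
      · have : (fun t : ℝ => L0 (-((1 : ℝ) : ℂ) + t * I)) =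
            fun t : ℝ => W * starRingEnd ℂ (L0 (1 + t * I)) := by
          funext t
          rw [← hfe0]
          simp
        rw [this]
        exact (Complex.conjCLE.toContinuousLinearMap.integrable_comp hint).const_mul W
      · exact (by fun_prop : Continuous fun t : ℝ => cexp (-((-((1 : ℝ) : ℂ) + t * I) * u))).aestronglyMeasurable
      · refine Eventually.of_forall fun t => ?_
        have := hexpb (-1) (by norm_num) t
        simpa using this
    have hs := shift_pr hGd zero_le_one hGM hG1 hG2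
    have e1 : ∫ t : ℝ, cexp (-((1 + t * I) * u)) * L0 (1 + t * I) = ∫ t : ℝ, G ((1 : ℝ) + t * I) := by
      simp [hG]
    rw [e1, hs, ← integral_conj, ← integral_const_mul]
    refine integral_congr_ae (Eventually.of_forall fun t => ?_)
    simp only [hG]
    have e2 : (-((1 : ℝ) : ℂ) + t * I) = -1 + t * I := by simp
    rw [e2, hfe0 t, map_mul (starRingEnd ℂ) (cexp (-((1 + t * I) * (-u : ℝ)))) (L0 (1 + t * I)),
      ← Complex.exp_conj]
    have e3 : starRingEnd ℂ (-((1 + t * I) * (-u : ℝ))) = -((-1 + t * I) * u) := by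
      simp
      ring
    rw [e3]
    ring
  refine ⟨W, hW, fun u => ?_⟩
  have a1 : Dx k x (-l - u) = ψ (-u) := by
    rw [hψ]
    simp only
    congr 1
    ring
  have a2 : Dx k x (-l + u) = ψ u := by
    rw [hψ]
    simp only
    congr 1
    ring
  rw [a1, a2, hinv (-u), hsh (-u), neg_neg, hinv u, map_mul]
  have a3 : starRingEnd ℂ ((2 * Real.pi : ℂ)⁻¹) = (2 * Real.pi : ℂ)⁻¹ := by
    rw [map_inv₀]
    simp [map_ofNat (starRingEnd ℂ) 2]
  rw [a3]
  ring

end Pool.Agent.G4
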