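import Pool.Agent.Lib_helper38.G4.DB
import Pool.Agent.Lib_helper44.G4.Defs
import Pool.Agent.Lib_helper50.G4.FED

/-!
# Decay of the density
-/

namespace Pool.Agent.G4

open Complex MeasureTheory Filter Topology

variable {m : ℕ}

/-- DEC: decay of the density -/
theorem dens_decay_pr {S : Sys m} (k : Kers S) {x : Ix} (hx : x.q.Coprime S.N)
    (hp : x.2.IsPrimitive) (A : ℝ) : ∃ C : ℝ, ∀ u : ℝ, ‖Dx k x u‖ ≤ C * Real.exp (-A * |u|) := by
  obtain ⟨CS, hCS⟩ := S.rs
  obtain ⟨C, hC0, hC⟩ := db_bound_pr k.κ_pos (k.isKer (par x.2)) CS (A := |A| + 1)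
    (by linarith [abs_nonneg A])
  obtain ⟨W, hW, hfe⟩ := fe_dens_pr k hx hp
  have hb : ∀ u : ℝ, ‖Dx k x u‖ ≤ C * Real.exp (-(|A| + 1) * u) := fun u => hC S.a hCS x u
  refine ⟨C * Real.exp ((|A| + 1) * |2 * ell S x|), fun u => ?_⟩
  have hA : A ≤ |A| := le_abs_self A
  rcases le_or_gt 0 u with h | h
  · refine (hb u).trans ?_
    rw [mul_assoc, ← Real.exp_add, abs_of_nonneg h]
    refine mul_le_mul_of_nonneg_left (Real.exp_le_exp.mpr ?_) hC0
    have : 0 ≤ (|A| + 1) * |2 * ell S x| := by positivity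
    nlinarith [mul_le_mul_of_nonneg_right hA h]
  · have h1 := hfe (-ell S x - u)
    have e1 : -ell S x - (-ell S x - u) = u := by ring
    rw [e1] at h1
    rw [h1, norm_mul, hW, one_mul, RCLike.norm_conj]
    refine (hb _).trans ?_
    rw [mul_assoc, ← Real.exp_add, abs_of_neg h]
    refine mul_le_mul_of_nonneg_left (Real.exp_le_exp.mpr ?_) hC0
    have h2 : 2 * ell S x ≤ |2 * ell S x| := le_abs_self _
    have h3 : 0 ≤ |A| := abs_nonneg A
    have h4 := mul_le_mul_of_nonneg_left h2 (by positivity : 0 ≤ |A| + 1)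
    nlinarith [mul_le_mul_of_nonneg_right hA (neg_nonneg.mpr h.le)]

end Pool.Agent.G4
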